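import Mathlib
import Pool.Agent.H626R2.Loc.Defs

/-! Formalised by helper177. -/

set_option autoImplicit false

namespace Pool.Agent.H626R2.Loc

open MvPolynomial

section poly

variable {K : Type} [Field K] {n : ℕ}

/-- C2a1. -/
theorem CD.add {r d : ℕ} {G H : MvPolynomial (Fin r) (MvPolynomial (Fin n) K)} (hG : CD d G)
    (hH : CD d H) : CD d (G + H) := by
  intro m
  rw [coeff_add]
  exact (totalDegree_add _ _).trans (max_le (hG m) (hH m))

/-- C2a2. -/
theorem CD.mul {r d e : ℕ} {G H : MvPolynomial (Fin r) (MvPolynomial (Fin n) K)} (hG : CD d G)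
    (hH : CD e H) : CD (d + e) (G * H) := by
  classical
  intro m
  rw [coeff_mul]
  refine (totalDegree_finsetSum _ _).trans (Finset.sup_le fun x _ => ?_)
  exact (totalDegree_mul _ _).trans (add_le_add (hG _) (hH _))

theorem CD_one_aux {r : ℕ} : CD 0 (1 : MvPolynomial (Fin r) (MvPolynomial (Fin n) K)) := by
  classical
  intro m
  rw [coeff_one]
  split_ifs
  · simp
  · simp

theorem CD_prod_aux {r d : ℕ} {ι : Type} (s : Finset ι)
    (G : ι → MvPolynomial (Fin r) (MvPolynomial (Fin n) K)) (hG : ∀ i ∈ s, CD d (G i)) :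
    CD (s.card * d) (∏ i ∈ s, G i) := by
  classical
  induction s using Finset.induction_on with
  | empty => simpa using CD_one_aux
  | insert a s ha ih =>
    rw [Finset.prod_insert ha, Finset.card_insert_of_notMem ha, Nat.succ_mul, add_comm]
    exact (hG a (Finset.mem_insert_self _ _)).mul (ih fun i hi => hG i (Finset.mem_insert_of_mem hi))

theorem CD_sum_aux {r d : ℕ} {ι : Type} (s : Finset ι)
    (G : ι → MvPolynomial (Fin r) (MvPolynomial (Fin n) K)) (hG : ∀ i ∈ s, CD d (G i)) :
    CD d (∑ i ∈ s, G i) := by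
  classical
  induction s using Finset.induction_on with
  | empty =>
    intro m
    simp
  | insert a s ha ih =>
    rw [Finset.sum_insert ha]
    exact (hG a (Finset.mem_insert_self _ _)).add (ih fun i hi => hG i (Finset.mem_insert_of_mem hi))

/-- C2a3. -/
theorem CD.det {r q d : ℕ} (R : Matrix (Fin q) (Fin q) (MvPolynomial (Fin r) (MvPolynomial (Fin n) K)))
    (hR : ∀ a b, CD d (R a b)) : CD (q * d) R.det := by
  classical
  rw [Matrix.det_apply]
  refine CD_sum_aux _ _ fun σ _ => ?_
  have h := CD_prod_aux Finset.univ (fun i => R (σ i) i) (fun i _ => hR (σ i) i)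
  rw [Finset.card_univ, Fintype.card_fin] at h
  intro m
  have hm := h m
  rcases Int.units_eq_one_or (Equiv.Perm.sign σ) with hs | hs
  · rw [hs, one_smul]
    exact hm
  · rw [hs, Units.neg_smul, one_smul, coeff_neg, totalDegree_neg]
    exact hm

theorem CD_C_aux {r d : ℕ} (c : MvPolynomial (Fin n) K) (hc : c.totalDegree ≤ d) :
    CD d (C c : MvPolynomial (Fin r) (MvPolynomial (Fin n) K)) := by
  classical
  intro m
  rw [coeff_C]
  split_ifs
  · exact hc
  · simp

theorem CD_X_aux {r : ℕ} (b : Fin r) :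
    CD 0 (X b : MvPolynomial (Fin r) (MvPolynomial (Fin n) K)) := by
  classical
  intro m
  rw [coeff_X]
  split_ifs
  · simp
  · simp

theorem CD_mono_aux {r d e : ℕ} (h : d ≤ e)
    {G : MvPolynomial (Fin r) (MvPolynomial (Fin n) K)} (hG : CD d G) : CD e G :=
  fun m => (hG m).trans h

theorem ren_X_aux {r : ℕ} (s : Fin r → Fin n) (m : Fin n) :
    CD 1 (ren (K := K) s (X m)) := by
  unfold ren
  rw [aeval_X]
  split_ifs with h
  · exact CD_mono_aux (Nat.zero_le 1) (CD_X_aux _)
  · exact CD_C_aux _ (totalDegree_X m).le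

theorem ren_C_aux {r : ℕ} (s : Fin r → Fin n) (c : K) :
    CD 0 (ren (K := K) s (C c)) := by
  have h : ren (K := K) s (C c) = C (C c) := by
    unfold ren
    rw [algHom_C]
    rfl
  rw [h]
  exact CD_C_aux _ (totalDegree_C c).le

/-- C2a4. -/
theorem CD_ren {r : ℕ} (s : Fin r → Fin n) (q : MvPolynomial (Fin n) K) :
    CD q.totalDegree (ren s q) := by
  classical
  have hq : ren s q = ∑ m ∈ q.support, ren s (monomial m (q.coeff m)) := by
    conv_lhs => rw [q.as_sum, map_sum]
  rw [hq]
  refine CD_sum_aux _ _ fun m hm => ?_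
  have hmon : ∀ (m : Fin n →₀ ℕ) (c : K), CD (m.sum fun _ e => e) (ren s (monomial m c)) := by
    intro m c
    rw [monomial_eq, map_mul, Finsupp.prod, map_prod, Finsupp.sum]
    have h1 := ren_C_aux (K := K) s c
    have h2 : CD (∑ i ∈ m.support, m i) (∏ i ∈ m.support, ren (K := K) s (X i ^ m i)) := by
      induction m.support using Finset.induction_on with
      | empty => simpa using CD_one_aux
      | insert a t ha ih =>
        rw [Finset.prod_insert ha, Finset.sum_insert ha]
        refine CD.mul ?_ ih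
        rw [map_pow]
        have h3 := CD_prod_aux (Finset.range (m a)) (fun _ => ren (K := K) s (X a))
          (fun _ _ => ren_X_aux s a)
        rw [Finset.prod_const, Finset.card_range, mul_one] at h3
        exact h3
    have h3 := h1.mul h2
    rwa [zero_add] at h3
  exact CD_mono_aux (le_totalDegree hm) (hmon m _)

/-- C2a5. -/
theorem CD_ren_univ {r : ℕ} (s : Fin r → Fin n) (b : Fin r) (u : Polynomial K) :
    CD 0 (ren s (Polynomial.aeval (X (s b) : MvPolynomial (Fin n) K) u)) := by
  classical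
  rw [← Polynomial.aeval_algHom_apply]
  have hX : ∃ b', ren (K := K) s (X (s b)) = X b' := by
    unfold ren
    rw [aeval_X, dif_pos ⟨b, rfl⟩]
    exact ⟨_, rfl⟩
  obtain ⟨b', hb'⟩ := hX
  rw [hb', Polynomial.aeval_eq_sum_range]
  refine CD_sum_aux _ _ fun i _ => ?_
  have h1 : CD 0 ((X b' : MvPolynomial (Fin r) (MvPolynomial (Fin n) K)) ^ i) := by
    have h3 := CD_prod_aux (Finset.range i)
      (fun _ => (X b' : MvPolynomial (Fin r) (MvPolynomial (Fin n) K))) (fun _ _ => CD_X_aux b')
    rwa [Finset.prod_const, mul_zero, Finset.card_range] at h3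
  intro m
  rw [coeff_smul]
  refine (totalDegree_smul_le _ _).trans (h1 m)

end poly

end Pool.Agent.H626R2.Loc
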