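import Mathlib
import Pool.Agent.H626R2.Loc.Defs
import Pool.Agent.H531R2.D4.TI

/-! Formalised by helper177. -/

set_option autoImplicit false

namespace Pool.Agent.H626R2.Loc

open MvPolynomial

/-- V12a. -/
theorem fr_algInd_of_det {r : ℕ} {Ω : Type} [Field Ω] [CharZero Ω]
    (T : Fin r → MvPolynomial (Fin r) Ω)
    (hdet : (Matrix.of fun a b : Fin r => pderiv b (T a)).det ≠ 0) :
    AlgebraicIndependent Ω (fun a => toFr (T a)) := by
  have h := Pool.Agent.H531R2.D4.algInd_of_detK (K := Ω) (fun b => pderiv b) T hdet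
  have h2 := h.map' (f := IsScalarTower.toAlgHom Ω (MvPolynomial (Fin r) Ω) (Fr r Ω))
    (toFr_injective (r := r) (F := Ω))
  exact h2

end Pool.Agent.H626R2.Loc
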